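import Pool.Agent.H73.HK.DET

/-!
# The p-adic determinant with derivatives (module DJ, dimension `2n`)

`AnJ P₁ P₂ F` says that the power series `F n` in the variables `t` (`n` a vector of `p`-adic
integers) is, coefficientwise modulo every power of `p`, a polynomial in the `δ` linear forms
`p (P₁ n + P₂ t)`.  `det_bound_J`: the determinant of the coefficients of `t ^ τ i` in `F j (pt i)`,
`i, j < N`, is divisible by `p ^ (D (N - D ^ δ))`.
-/

namespace Pool.Agent.H2.HN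

open Finset

variable {p : ℕ} [Fact p.Prime] {r κ δ : ℕ}

/-- divisibility by a power of `p` of a power series is divisibility of all its coefficients -/
theorem dvd_iff (D : ℕ) (f : MvPowerSeries (Fin κ) ℤ_[p]) :
    (p : MvPowerSeries (Fin κ) ℤ_[p]) ^ D ∣ f ↔
      ∀ τ, (p : ℤ_[p]) ^ D ∣ MvPowerSeries.coeff τ f := by
  have hc : (p : MvPowerSeries (Fin κ) ℤ_[p]) ^ D = MvPowerSeries.C ((p : ℤ_[p]) ^ D) := by
    rw [map_pow, map_natCast]
  constructor
  · rintro ⟨g, rfl⟩ τ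
    rw [hc, MvPowerSeries.coeff_C_mul]
    exact dvd_mul_right _ _
  · intro h
    choose g hg using h
    obtain ⟨G, hG⟩ : ∃ G : MvPowerSeries (Fin κ) ℤ_[p], ∀ τ, MvPowerSeries.coeff τ G = g τ :=
      ⟨(fun τ => g τ : (Fin κ →₀ ℕ) → ℤ_[p]), fun τ => rfl⟩
    refine ⟨G, ?_⟩
    ext τ
    rw [hc, MvPowerSeries.coeff_C_mul, hg τ, hG τ]

/-- the linear form `P₁ n + P₂ t` as a power series in `t` -/
noncomputable def lin (P₁ : (Fin r → ℤ_[p]) →ₗ[ℤ_[p]] (Fin δ → ℤ_[p]))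
    (P₂ : Fin δ → Fin κ → ℤ_[p]) (n : Fin r → ℤ_[p]) (k : Fin δ) :
    MvPowerSeries (Fin κ) ℤ_[p] :=
  MvPowerSeries.C (P₁ n k) + ∑ a, MvPowerSeries.C (P₂ k a) * MvPowerSeries.X a

/-- `F n` is, modulo every power of `p`, a polynomial in the linear forms `p (P₁ n + P₂ t)`. -/
def AnJ (P₁ : (Fin r → ℤ_[p]) →ₗ[ℤ_[p]] (Fin δ → ℤ_[p])) (P₂ : Fin δ → Fin κ → ℤ_[p])
    (F : (Fin r → ℤ_[p]) → MvPowerSeries (Fin κ) ℤ_[p]) : Prop :=
  ∀ D : ℕ, ∃ Q : MvPolynomial (Fin δ) ℤ_[p], ∀ n : Fin r → ℤ_[p],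
    (p : MvPowerSeries (Fin κ) ℤ_[p]) ^ D ∣
      F n - MvPolynomial.aeval (fun k => (p : MvPowerSeries (Fin κ) ℤ_[p]) * lin P₁ P₂ n k) Q

section AnJ

variable {P₁ : (Fin r → ℤ_[p]) →ₗ[ℤ_[p]] (Fin δ → ℤ_[p])} {P₂ : Fin δ → Fin κ → ℤ_[p]}

theorem AnJ.const (c : ℤ_[p]) : AnJ P₁ P₂ (fun _ => MvPowerSeries.C c) := by
  intro D
  refine ⟨MvPolynomial.C c, fun n => ?_⟩
  have h : MvPolynomial.aeval
      (fun k => (p : MvPowerSeries (Fin κ) ℤ_[p]) * lin P₁ P₂ n k) (MvPolynomial.C c)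
      = MvPowerSeries.C c := by
    rw [MvPolynomial.aeval_C]
    rfl
  rw [h, sub_self]
  exact dvd_zero _

theorem AnJ.add {F G : (Fin r → ℤ_[p]) → MvPowerSeries (Fin κ) ℤ_[p]} (hF : AnJ P₁ P₂ F)
    (hG : AnJ P₁ P₂ G) : AnJ P₁ P₂ (fun n => F n + G n) := by
  intro D
  obtain ⟨P, hP⟩ := hF D
  obtain ⟨Q, hQ⟩ := hG D
  refine ⟨P + Q, fun n => ?_⟩
  have := dvd_add (hP n) (hQ n)
  rw [map_add]
  convert this using 1
  ring

theorem AnJ.mul {F G : (Fin r → ℤ_[p]) → MvPowerSeries (Fin κ) ℤ_[p]} (hF : AnJ P₁ P₂ F)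
    (hG : AnJ P₁ P₂ G) : AnJ P₁ P₂ (fun n => F n * G n) := by
  intro D
  obtain ⟨P, hP⟩ := hF D
  obtain ⟨Q, hQ⟩ := hG D
  refine ⟨P * Q, fun n => ?_⟩
  rw [map_mul]
  have h : ∀ a b c d : MvPowerSeries (Fin κ) ℤ_[p], a * b - c * d = (a - c) * b + c * (b - d) := by
    intro a b c d
    ring
  rw [h]
  exact dvd_add (Dvd.dvd.mul_right (hP n) _) (Dvd.dvd.mul_left (hQ n) _)

theorem AnJ.sum {ι : Type*} (s : Finset ι)
    {F : ι → (Fin r → ℤ_[p]) → MvPowerSeries (Fin κ) ℤ_[p]} (hF : ∀ i ∈ s, AnJ P₁ P₂ (F i)) :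
    AnJ P₁ P₂ (fun n => ∑ i ∈ s, F i n) := by
  classical
  induction s using Finset.induction_on with
  | empty =>
    have h := AnJ.const (P₁ := P₁) (P₂ := P₂) (0 : ℤ_[p])
    simpa using h
  | insert a s ha ih =>
    have h1 := (hF a (Finset.mem_insert_self a s)).add
      (ih fun i hi => hF i (Finset.mem_insert_of_mem hi))
    simpa [Finset.sum_insert ha] using h1

theorem AnJ.prod {ι : Type*} (s : Finset ι)
    {F : ι → (Fin r → ℤ_[p]) → MvPowerSeries (Fin κ) ℤ_[p]} (hF : ∀ i ∈ s, AnJ P₁ P₂ (F i)) :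
    AnJ P₁ P₂ (fun n => ∏ i ∈ s, F i n) := by
  classical
  induction s using Finset.induction_on with
  | empty =>
    have h := AnJ.const (P₁ := P₁) (P₂ := P₂) (1 : ℤ_[p])
    simpa using h
  | insert a s ha ih =>
    have h1 := (hF a (Finset.mem_insert_self a s)).mul
      (ih fun i hi => hF i (Finset.mem_insert_of_mem hi))
    simpa [Finset.prod_insert ha] using h1

theorem lin_add (n n₀ : Fin r → ℤ_[p]) (k : Fin δ) :
    lin P₁ P₂ (n + n₀) k = lin P₁ P₂ n k + MvPowerSeries.C (P₁ n₀ k) := by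
  unfold lin
  rw [map_add, Pi.add_apply, map_add]
  ring

theorem AnJ.shift {F : (Fin r → ℤ_[p]) → MvPowerSeries (Fin κ) ℤ_[p]} (hF : AnJ P₁ P₂ F)
    (n₀ : Fin r → ℤ_[p]) : AnJ P₁ P₂ (fun n => F (n + n₀)) := by
  intro D
  obtain ⟨P, hP⟩ := hF D
  refine ⟨MvPolynomial.aeval (fun k : Fin δ => (MvPolynomial.X k : MvPolynomial (Fin δ) ℤ_[p])
      + MvPolynomial.C ((p : ℤ_[p]) * P₁ n₀ k)) P, fun n => ?_⟩
  have h3 : (MvPolynomial.aeval
        (fun k => (p : MvPowerSeries (Fin κ) ℤ_[p]) * lin P₁ P₂ n k)).comp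
      (MvPolynomial.aeval (fun k : Fin δ => (MvPolynomial.X k : MvPolynomial (Fin δ) ℤ_[p])
        + MvPolynomial.C ((p : ℤ_[p]) * P₁ n₀ k)))
      = MvPolynomial.aeval
          (fun k => (p : MvPowerSeries (Fin κ) ℤ_[p]) * lin P₁ P₂ (n + n₀) k) := by
    apply MvPolynomial.algHom_ext
    intro k
    have e1 : algebraMap ℤ_[p] (MvPowerSeries (Fin κ) ℤ_[p]) ((p : ℤ_[p]) * P₁ n₀ k)
        = (p : MvPowerSeries (Fin κ) ℤ_[p]) * MvPowerSeries.C (P₁ n₀ k) := by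
      rw [map_mul, map_natCast]
      rfl
    rw [AlgHom.comp_apply, MvPolynomial.aeval_X, MvPolynomial.aeval_X, map_add,
      MvPolynomial.aeval_X, MvPolynomial.aeval_C, e1, lin_add, mul_add]
  have h2 := DFunLike.congr_fun h3 P
  rw [AlgHom.comp_apply] at h2
  rw [h2]
  exact hP (n + n₀)

/-- modulo `p ^ D` a polynomial in the `p * lin` is a combination of the monomials with all
exponents `< D` -/
theorem poly_trunc_J (D : ℕ) (H : MvPolynomial (Fin δ) ℤ_[p]) :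
    ∃ C : (Fin δ → Fin D) → ℤ_[p], ∀ n : Fin r → ℤ_[p],
      (p : MvPowerSeries (Fin κ) ℤ_[p]) ^ D ∣
        MvPolynomial.aeval (fun k => (p : MvPowerSeries (Fin κ) ℤ_[p]) * lin P₁ P₂ n k) H
        - ∑ x : Fin δ → Fin D, MvPowerSeries.C (C x) * ∏ k, lin P₁ P₂ n k ^ (x k : ℕ) := by
  classical
  induction H using MvPolynomial.induction_on' with
  | monomial u c =>
    have hev : ∀ n : Fin r → ℤ_[p], MvPolynomial.aeval
        (fun k => (p : MvPowerSeries (Fin κ) ℤ_[p]) * lin P₁ P₂ n k) (MvPolynomial.monomial u c)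
        = MvPowerSeries.C c * ((∏ k, (p : MvPowerSeries (Fin κ) ℤ_[p]) ^ u k)
          * ∏ k, lin P₁ P₂ n k ^ u k) := by
      intro n
      rw [MvPolynomial.aeval_monomial, Finsupp.prod_fintype _ _ (fun i => pow_zero _),
        ← Finset.prod_mul_distrib]
      congr 1
      exact Finset.prod_congr rfl fun k _ => by rw [mul_pow]
    by_cases h : ∀ k, u k < D
    · refine ⟨Pi.single (fun k => ⟨u k, h k⟩) (c * ∏ k, (p : ℤ_[p]) ^ u k), fun n => ?_⟩
      rw [hev]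
      rw [Finset.sum_eq_single (fun k => (⟨u k, h k⟩ : Fin D))]
      · rw [Pi.single_eq_same, map_mul, map_prod]
        have h3 : ∏ k, MvPowerSeries.C ((p : ℤ_[p]) ^ u k)
            = ∏ k, (p : MvPowerSeries (Fin κ) ℤ_[p]) ^ u k :=
          Finset.prod_congr rfl fun k _ => by rw [map_pow, map_natCast]
        rw [h3]
        convert dvd_zero _ using 1
        ring
      · intro x _ hx
        rw [Pi.single_eq_of_ne hx, map_zero, zero_mul]
      · intro hx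
        exact absurd (Finset.mem_univ _) hx
    · push Not at h
      obtain ⟨k, hk⟩ := h
      refine ⟨0, fun n => ?_⟩
      rw [hev]
      simp only [Pi.zero_apply, map_zero, zero_mul, Finset.sum_const_zero, sub_zero]
      refine Dvd.dvd.mul_left (Dvd.dvd.mul_right ?_ _) _
      exact (pow_dvd_pow _ hk).trans (Finset.dvd_prod_of_mem
        (fun k => (p : MvPowerSeries (Fin κ) ℤ_[p]) ^ u k) (Finset.mem_univ k))
  | add P Q hP hQ =>
    obtain ⟨C₁, h₁⟩ := hP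
    obtain ⟨C₂, h₂⟩ := hQ
    refine ⟨C₁ + C₂, fun n => ?_⟩
    have := dvd_add (h₁ n) (h₂ n)
    rw [map_add]
    convert this using 1
    simp only [Pi.add_apply, map_add, add_mul, Finset.sum_add_distrib]
    ring

end AnJ

/-- **The determinant bound with derivatives.** -/
theorem det_bound_J {N D : ℕ} (P₁ : (Fin r → ℤ_[p]) →ₗ[ℤ_[p]] (Fin δ → ℤ_[p]))
    (P₂ : Fin δ → Fin κ → ℤ_[p]) (F : Fin N → (Fin r → ℤ_[p]) → MvPowerSeries (Fin κ) ℤ_[p])
    (hF : ∀ j, AnJ P₁ P₂ (F j)) (pt : Fin N → (Fin r → ℤ_[p])) (τ : Fin N → (Fin κ →₀ ℕ)) :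
    (p : ℤ_[p]) ^ (D * (N - D ^ δ)) ∣
      Matrix.det (Matrix.of fun i j => MvPowerSeries.coeff (τ i) (F j (pt i))) := by
  classical
  have hH : ∀ j, ∃ C : (Fin δ → Fin D) → ℤ_[p], ∀ i : Fin N, (p : ℤ_[p]) ^ D ∣
      MvPowerSeries.coeff (τ i) (F j (pt i))
        - ∑ x : Fin δ → Fin D,
          MvPowerSeries.coeff (τ i) (∏ k, lin P₁ P₂ (pt i) k ^ (x k : ℕ)) * C x := by
    intro j
    obtain ⟨H, hH⟩ := hF j D
    obtain ⟨C, hC⟩ := poly_trunc_J (P₁ := P₁) (P₂ := P₂) D H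
    refine ⟨C, fun i => ?_⟩
    have h1 := dvd_add (hH (pt i)) (hC (pt i))
    rw [sub_add_sub_cancel] at h1
    have h2 := (dvd_iff D _).1 h1 (τ i)
    rw [map_sub, map_sum] at h2
    convert h2 using 2
    refine Finset.sum_congr rfl fun x _ => ?_
    rw [MvPowerSeries.coeff_C_mul, mul_comm]
  choose C hC using hH
  choose E hE using fun i j => hC j i
  have hmat : (Matrix.of fun i j => MvPowerSeries.coeff (τ i) (F j (pt i)))
      = Matrix.of fun i j => (∑ x : Fin δ → Fin D,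
          MvPowerSeries.coeff (τ i) (∏ k, lin P₁ P₂ (pt i) k ^ (x k : ℕ)) * C j x)
        + (p : ℤ_[p]) ^ D * E i j := by
    ext i j
    rw [Matrix.of_apply, Matrix.of_apply, ← hE i j]
    ring
  rw [hmat, pow_mul]
  have := Pool.Agent.H73.HK.det_low_rank ((p : ℤ_[p]) ^ D)
    (fun i (x : Fin δ → Fin D) =>
      MvPowerSeries.coeff (τ i) (∏ k, lin P₁ P₂ (pt i) k ^ (x k : ℕ)))
    (fun x j => C j x) E
  rw [Fintype.card_fun, Fintype.card_fin, Fintype.card_fin] at this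
  exact this

/-! ### Rescaling of the variables `t` -/

/-- `f` is `g` with `t` replaced by `p ^ M t` -/
def Scaled {K : Type*} [CommRing K] (M : ℕ) (ι : K →+* ℚ_[p]) (f : MvPowerSeries (Fin κ) ℤ_[p])
    (g : MvPowerSeries (Fin κ) K) : Prop :=
  ∀ τ : Fin κ →₀ ℕ, ((MvPowerSeries.coeff τ f : ℤ_[p]) : ℚ_[p])
    = (p : ℚ_[p]) ^ (M * τ.degree) * ι (MvPowerSeries.coeff τ g)

theorem Scaled.one {K : Type*} [CommRing K] (M : ℕ) (ι : K →+* ℚ_[p]) :
    Scaled M ι (1 : MvPowerSeries (Fin κ) ℤ_[p]) (1 : MvPowerSeries (Fin κ) K) := by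
  classical
  intro τ
  rw [MvPowerSeries.coeff_one, MvPowerSeries.coeff_one]
  by_cases h : τ = 0
  · subst h
    simp
  · simp [h]

theorem Scaled.mul {K : Type*} [CommRing K] {M : ℕ} {ι : K →+* ℚ_[p]}
    {f f' : MvPowerSeries (Fin κ) ℤ_[p]} {g g' : MvPowerSeries (Fin κ) K} (h : Scaled M ι f g)
    (h' : Scaled M ι f' g') : Scaled M ι (f * f') (g * g') := by
  classical
  intro τ
  rw [MvPowerSeries.coeff_mul, MvPowerSeries.coeff_mul, PadicInt.coe_sum, map_sum,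
    Finset.mul_sum]
  refine Finset.sum_congr rfl fun x hx => ?_
  rw [PadicInt.coe_mul, h x.1, h' x.2, map_mul]
  have hd : τ.degree = x.1.degree + x.2.degree := by
    rw [← Finset.HasAntidiagonal.mem_antidiagonal.1 hx, map_add]
  rw [hd, mul_add, pow_add]
  ring

theorem Scaled.prod {K : Type*} [CommRing K] {M : ℕ} {ι : K →+* ℚ_[p]} {I : Type*} (s : Finset I)
    {f : I → MvPowerSeries (Fin κ) ℤ_[p]} {g : I → MvPowerSeries (Fin κ) K}
    (h : ∀ i ∈ s, Scaled M ι (f i) (g i)) : Scaled M ι (∏ i ∈ s, f i) (∏ i ∈ s, g i) := by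
  classical
  induction s using Finset.induction_on with
  | empty => simpa using Scaled.one M ι
  | insert a s ha ih =>
    rw [Finset.prod_insert ha, Finset.prod_insert ha]
    exact (h a (Finset.mem_insert_self a s)).mul (ih fun i hi => h i (Finset.mem_insert_of_mem hi))

/-- **Size of the determinant of the coefficients over `K`.** -/
theorem norm_det_le {K : Type*} [CommRing K] {N D d : ℕ} (M : ℕ) (ι : K →+* ℚ_[p])
    (P₁ : (Fin r → ℤ_[p]) →ₗ[ℤ_[p]] (Fin δ → ℤ_[p])) (P₂ : Fin δ → Fin κ → ℤ_[p]) (hδ : δ ≤ d)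
    (F : Fin N → (Fin r → ℤ_[p]) → MvPowerSeries (Fin κ) ℤ_[p]) (hF : ∀ j, AnJ P₁ P₂ (F j))
    (pt : Fin N → (Fin r → ℤ_[p])) (τ : Fin N → (Fin κ →₀ ℕ))
    (g : Fin N → Fin N → MvPowerSeries (Fin κ) K)
    (hg : ∀ i j, Scaled M ι (F j (pt i)) (g i j)) :
    ‖ι (Matrix.det (Matrix.of fun i j => MvPowerSeries.coeff (τ i) (g i j)))‖
      ≤ (p : ℝ) ^ (M * ∑ i, (τ i).degree) * ((p : ℝ) ^ (D * (N - D ^ d)))⁻¹ := by
  classical
  have hp : (0 : ℝ) < p := by exact_mod_cast (Fact.out : p.Prime).pos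
  have hp1 : (1 : ℝ) ≤ p := by exact_mod_cast (Fact.out : p.Prime).one_le
  have hp0 : (p : ℚ_[p]) ≠ 0 := by exact_mod_cast (Fact.out : p.Prime).ne_zero
  have h1 := det_bound_J (D := D) P₁ P₂ F hF pt τ
  -- the determinant over `ℤ_[p]` is the one over `K` times a power of `p`
  have h2 : ((Matrix.det (Matrix.of fun i j => MvPowerSeries.coeff (τ i) (F j (pt i))) : ℤ_[p])
      : ℚ_[p]) = (p : ℚ_[p]) ^ (M * ∑ i, (τ i).degree) *
        ι (Matrix.det (Matrix.of fun i j => MvPowerSeries.coeff (τ i) (g i j))) := by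
    have e1 : ((Matrix.det (Matrix.of fun i j => MvPowerSeries.coeff (τ i) (F j (pt i))) : ℤ_[p])
        : ℚ_[p]) = PadicInt.Coe.ringHom
          (Matrix.det (Matrix.of fun i j => MvPowerSeries.coeff (τ i) (F j (pt i)))) := rfl
    rw [e1, RingHom.map_det, RingHom.map_det]
    have e2 : (PadicInt.Coe.ringHom (p := p)).mapMatrix
        (Matrix.of fun i j => MvPowerSeries.coeff (τ i) (F j (pt i)))
        = Matrix.of fun i j => (p : ℚ_[p]) ^ (M * (τ i).degree) *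
          (ι.mapMatrix (Matrix.of fun i j => MvPowerSeries.coeff (τ i) (g i j))) i j := by
      ext i j
      simp only [RingHom.mapMatrix_apply, Matrix.map_apply, Matrix.of_apply]
      exact hg i j (τ i)
    rw [e2, Matrix.det_mul_column]
    congr 1
    rw [Finset.prod_pow_eq_pow_sum, Finset.mul_sum]
  have h3 : ‖((Matrix.det (Matrix.of fun i j => MvPowerSeries.coeff (τ i) (F j (pt i))) : ℤ_[p])
      : ℚ_[p])‖ ≤ ((p : ℝ) ^ (D * (N - D ^ d)))⁻¹ := by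
    have h4 : (p : ℤ_[p]) ^ (D * (N - D ^ d)) ∣
        Matrix.det (Matrix.of fun i j => MvPowerSeries.coeff (τ i) (F j (pt i))) := by
      refine (pow_dvd_pow _ ?_).trans h1
      rcases Nat.eq_zero_or_pos D with hD | hD
      · simp [hD]
      · exact Nat.mul_le_mul_left _ (Nat.sub_le_sub_left (Nat.pow_le_pow_right hD hδ) N)
    obtain ⟨c, hc⟩ := h4
    rw [← PadicInt.norm_def, hc, norm_mul, PadicInt.norm_p_pow]
    calc (p : ℝ) ^ (-((D * (N - D ^ d) : ℕ) : ℤ)) * ‖c‖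
        ≤ (p : ℝ) ^ (-((D * (N - D ^ d) : ℕ) : ℤ)) * 1 := by
          gcongr
          exact PadicInt.norm_le_one c
      _ = ((p : ℝ) ^ (D * (N - D ^ d)))⁻¹ := by rw [mul_one, zpow_neg, zpow_natCast]
  rw [h2, norm_mul, norm_pow, Padic.norm_p] at h3
  have h5 : (0 : ℝ) < (p : ℝ) ^ (M * ∑ i, (τ i).degree) := by positivity
  have h6 : ((p : ℝ)⁻¹ ^ (M * ∑ i, (τ i).degree)) = ((p : ℝ) ^ (M * ∑ i, (τ i).degree))⁻¹ := by
    rw [inv_pow]
  rw [h6] at h3
  calc ‖ι (Matrix.det (Matrix.of fun i j => MvPowerSeries.coeff (τ i) (g i j)))‖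
      = (p : ℝ) ^ (M * ∑ i, (τ i).degree) * (((p : ℝ) ^ (M * ∑ i, (τ i).degree))⁻¹ *
        ‖ι (Matrix.det (Matrix.of fun i j => MvPowerSeries.coeff (τ i) (g i j)))‖) := by
        field_simp
    _ ≤ _ := by gcongr

end Pool.Agent.H2.HN
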