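import Pool.Agent.H13.HN.Disc
import Pool.Agent.H2.HN.DJ

/-!
# The p-adic determinant for a residue disc (module DETJ, dimension `2n`)
-/

namespace Pool.Agent.H2.HN

open Finset
open Pool.Agent.H13.HN (Disc nc)

variable {p : ℕ} [Fact p.Prime] {r κ δ : ℕ}

/-- `F n` (`n` an integral vector) is, modulo every power of `p`, a polynomial in the linear forms
`p (n P1 + t P2)`. -/
def AnZ (P1 : Fin r → Fin δ → ℤ_[p]) (P2 : Fin κ → Fin δ → ℤ_[p])
    (F : (Fin r → ℤ) → MvPowerSeries (Fin κ) ℤ_[p]) : Prop :=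
  ∀ D : ℕ, ∃ Q : MvPolynomial (Fin δ) ℤ_[p], ∀ n : Fin r → ℤ,
    (p : MvPowerSeries (Fin κ) ℤ_[p]) ^ D ∣
      F n - MvPolynomial.aeval (Pool.Agent.H13.HN.lin P1 P2 n) Q

section AnZ

variable {P1 : Fin r → Fin δ → ℤ_[p]} {P2 : Fin κ → Fin δ → ℤ_[p]}

theorem AnZ.one : AnZ P1 P2 (fun _ => 1) := by
  intro D
  refine ⟨1, fun n => ?_⟩
  rw [map_one, sub_self]
  exact dvd_zero _

theorem AnZ.mul {F G : (Fin r → ℤ) → MvPowerSeries (Fin κ) ℤ_[p]} (hF : AnZ P1 P2 F)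
    (hG : AnZ P1 P2 G) : AnZ P1 P2 (fun n => F n * G n) := by
  intro D
  obtain ⟨P, hP⟩ := hF D
  obtain ⟨Q, hQ⟩ := hG D
  refine ⟨P * Q, fun n => ?_⟩
  rw [map_mul]
  have h : ∀ a b c d : MvPowerSeries (Fin κ) ℤ_[p], a * b - c * d = (a - c) * b + c * (b - d) := by
    intro a b c d
    ring
  rw [h]
  exact dvd_add (Dvd.dvd.mul_right (hP n) _) (Dvd.dvd.mul_left (hQ n) _)

theorem AnZ.prod {ι : Type*} (s : Finset ι)
    {F : ι → (Fin r → ℤ) → MvPowerSeries (Fin κ) ℤ_[p]} (hF : ∀ i ∈ s, AnZ P1 P2 (F i)) :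
    AnZ P1 P2 (fun n => ∏ i ∈ s, F i n) := by
  classical
  induction s using Finset.induction_on with
  | empty => simpa using AnZ.one (P1 := P1) (P2 := P2)
  | insert a s ha ih =>
    have h1 := (hF a (Finset.mem_insert_self a s)).mul
      (ih fun i hi => hF i (Finset.mem_insert_of_mem hi))
    simpa [Finset.prod_insert ha] using h1

theorem linz_add (n n₀ : Fin r → ℤ) (k : Fin δ) :
    Pool.Agent.H13.HN.lin P1 P2 (n₀ + n) k = Pool.Agent.H13.HN.lin P1 P2 n k +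
      MvPowerSeries.C ((p : ℤ_[p]) * ∑ i, (n₀ i : ℤ_[p]) * P1 i k) := by
  unfold Pool.Agent.H13.HN.lin
  have h : (p : ℤ_[p]) * ∑ i, (((n₀ + n) i : ℤ) : ℤ_[p]) * P1 i k
      = (p : ℤ_[p]) * ∑ i, (n i : ℤ_[p]) * P1 i k
        + (p : ℤ_[p]) * ∑ i, (n₀ i : ℤ_[p]) * P1 i k := by
    rw [← mul_add, ← Finset.sum_add_distrib]
    congr 1
    refine Finset.sum_congr rfl fun i _ => ?_
    rw [Pi.add_apply]
    push_cast
    ring
  rw [h, map_add]
  ring

theorem AnZ.shift {F : (Fin r → ℤ) → MvPowerSeries (Fin κ) ℤ_[p]} (hF : AnZ P1 P2 F)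
    (n₀ : Fin r → ℤ) : AnZ P1 P2 (fun n => F (n₀ + n)) := by
  intro D
  obtain ⟨P, hP⟩ := hF D
  refine ⟨MvPolynomial.aeval (fun k : Fin δ => (MvPolynomial.X k : MvPolynomial (Fin δ) ℤ_[p])
      + MvPolynomial.C ((p : ℤ_[p]) * ∑ i, (n₀ i : ℤ_[p]) * P1 i k)) P, fun n => ?_⟩
  have h3 : (MvPolynomial.aeval (Pool.Agent.H13.HN.lin P1 P2 n)).comp
      (MvPolynomial.aeval (fun k : Fin δ => (MvPolynomial.X k : MvPolynomial (Fin δ) ℤ_[p])
        + MvPolynomial.C ((p : ℤ_[p]) * ∑ i, (n₀ i : ℤ_[p]) * P1 i k)))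
      = MvPolynomial.aeval (Pool.Agent.H13.HN.lin P1 P2 (n₀ + n)) := by
    apply MvPolynomial.algHom_ext
    intro k
    have e1 : algebraMap ℤ_[p] (MvPowerSeries (Fin κ) ℤ_[p])
        ((p : ℤ_[p]) * ∑ i, (n₀ i : ℤ_[p]) * P1 i k)
        = MvPowerSeries.C ((p : ℤ_[p]) * ∑ i, (n₀ i : ℤ_[p]) * P1 i k) := rfl
    rw [AlgHom.comp_apply, MvPolynomial.aeval_X, MvPolynomial.aeval_X, map_add,
      MvPolynomial.aeval_X, MvPolynomial.aeval_C, e1, linz_add]
  have h2 := DFunLike.congr_fun h3 P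
  rw [AlgHom.comp_apply] at h2
  rw [h2]
  exact hP (n₀ + n)

/-- `lin P1 P2 n = p * (the linear form without p)` -/
theorem linz_eq (n : Fin r → ℤ) (k : Fin δ) :
    Pool.Agent.H13.HN.lin P1 P2 n k = (p : MvPowerSeries (Fin κ) ℤ_[p]) *
      (MvPowerSeries.C (∑ i, (n i : ℤ_[p]) * P1 i k)
        + ∑ i, MvPowerSeries.C (P2 i k) * MvPowerSeries.X i) := by
  unfold Pool.Agent.H13.HN.lin
  have e1 : MvPowerSeries.C (σ := Fin κ) ((p : ℤ_[p]) * ∑ i, (n i : ℤ_[p]) * P1 i k)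
      = (p : MvPowerSeries (Fin κ) ℤ_[p]) * MvPowerSeries.C (∑ i, (n i : ℤ_[p]) * P1 i k) := by
    rw [map_mul, map_natCast]
  rw [mul_add, e1, Finset.mul_sum]
  congr 1
  refine Finset.sum_congr rfl fun i _ => ?_
  rw [map_mul, map_natCast, mul_assoc]

/-- modulo `p ^ D` a polynomial in the `lin` is a combination, with coefficients independent of
`n`, of products of powers with exponents `< D` -/
theorem poly_trunc_Z (D : ℕ) (H : MvPolynomial (Fin δ) ℤ_[p]) :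
    ∃ C : (Fin δ → Fin D) → ℤ_[p], ∀ n : Fin r → ℤ,
      (p : MvPowerSeries (Fin κ) ℤ_[p]) ^ D ∣
        MvPolynomial.aeval (Pool.Agent.H13.HN.lin P1 P2 n) H
        - ∑ x : Fin δ → Fin D, MvPowerSeries.C (C x) *
          ∏ k, Pool.Agent.H13.HN.lin P1 P2 n k ^ (x k : ℕ) := by
  classical
  induction H using MvPolynomial.induction_on' with
  | monomial u c =>
    have hev : ∀ n : Fin r → ℤ, MvPolynomial.aeval
        (Pool.Agent.H13.HN.lin P1 P2 n) (MvPolynomial.monomial u c)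
        = MvPowerSeries.C c * ∏ k, Pool.Agent.H13.HN.lin P1 P2 n k ^ u k := by
      intro n
      rw [MvPolynomial.aeval_monomial, Finsupp.prod_fintype _ _ (fun i => pow_zero _)]
      rfl
    by_cases h : ∀ k, u k < D
    · refine ⟨Pi.single (fun k => ⟨u k, h k⟩) c, fun n => ?_⟩
      rw [hev]
      rw [Finset.sum_eq_single (fun k => (⟨u k, h k⟩ : Fin D))]
      · rw [Pi.single_eq_same]
        convert dvd_zero _ using 1
        exact sub_self _
      · intro x _ hx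
        rw [Pi.single_eq_of_ne hx, map_zero, zero_mul]
      · intro hx
        exact absurd (Finset.mem_univ _) hx
    · push Not at h
      obtain ⟨k, hk⟩ := h
      refine ⟨0, fun n => ?_⟩
      rw [hev]
      simp only [Pi.zero_apply, map_zero, zero_mul, Finset.sum_const_zero, sub_zero]
      refine Dvd.dvd.mul_left ?_ _
      have h1 : (p : MvPowerSeries (Fin κ) ℤ_[p]) ^ D ∣
          Pool.Agent.H13.HN.lin P1 P2 n k ^ u k := by
        rw [linz_eq, mul_pow]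
        exact Dvd.dvd.mul_right (pow_dvd_pow _ hk) _
      exact h1.trans (Finset.dvd_prod_of_mem
        (fun k => Pool.Agent.H13.HN.lin P1 P2 n k ^ u k) (Finset.mem_univ k))
  | add P Q hP hQ =>
    obtain ⟨C₁, h₁⟩ := hP
    obtain ⟨C₂, h₂⟩ := hQ
    refine ⟨C₁ + C₂, fun n => ?_⟩
    have := dvd_add (h₁ n) (h₂ n)
    rw [map_add]
    convert this using 1
    simp only [Pi.add_apply, map_add, add_mul, Finset.sum_add_distrib]
    ring

end AnZ

/-- **The determinant bound with derivatives**, points with integral coordinates. -/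
theorem det_bound_Z {N D : ℕ} (P1 : Fin r → Fin δ → ℤ_[p]) (P2 : Fin κ → Fin δ → ℤ_[p])
    (F : Fin N → (Fin r → ℤ) → MvPowerSeries (Fin κ) ℤ_[p])
    (hF : ∀ j, AnZ P1 P2 (F j)) (pt : Fin N → (Fin r → ℤ)) (τ : Fin N → (Fin κ →₀ ℕ)) :
    (p : ℤ_[p]) ^ (D * (N - D ^ δ)) ∣
      Matrix.det (Matrix.of fun i j => MvPowerSeries.coeff (τ i) (F j (pt i))) := by
  classical
  have hH : ∀ j, ∃ C : (Fin δ → Fin D) → ℤ_[p], ∀ i : Fin N, (p : ℤ_[p]) ^ D ∣
      MvPowerSeries.coeff (τ i) (F j (pt i))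
        - ∑ x : Fin δ → Fin D,
          MvPowerSeries.coeff (τ i)
            (∏ k, Pool.Agent.H13.HN.lin P1 P2 (pt i) k ^ (x k : ℕ)) * C x := by
    intro j
    obtain ⟨H, hH⟩ := hF j D
    obtain ⟨C, hC⟩ := poly_trunc_Z (P1 := P1) (P2 := P2) D H
    refine ⟨C, fun i => ?_⟩
    have h1 := dvd_add (hH (pt i)) (hC (pt i))
    rw [sub_add_sub_cancel] at h1
    have h2 := (dvd_iff D _).1 h1 (τ i)
    rw [map_sub, map_sum] at h2
    convert h2 using 2
    refine Finset.sum_congr rfl fun x _ => ?_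
    rw [MvPowerSeries.coeff_C_mul, mul_comm]
  choose C hC using hH
  choose E hE using fun i j => hC j i
  have hmat : (Matrix.of fun i j => MvPowerSeries.coeff (τ i) (F j (pt i)))
      = Matrix.of fun i j => (∑ x : Fin δ → Fin D,
          MvPowerSeries.coeff (τ i)
            (∏ k, Pool.Agent.H13.HN.lin P1 P2 (pt i) k ^ (x k : ℕ)) * C j x)
        + (p : ℤ_[p]) ^ D * E i j := by
    ext i j
    rw [Matrix.of_apply, Matrix.of_apply, ← hE i j]
    ring
  rw [hmat, pow_mul]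
  have := Pool.Agent.H73.HK.det_low_rank ((p : ℤ_[p]) ^ D)
    (fun i (x : Fin δ → Fin D) =>
      MvPowerSeries.coeff (τ i) (∏ k, Pool.Agent.H13.HN.lin P1 P2 (pt i) k ^ (x k : ℕ)))
    (fun x j => C j x) E
  rw [Fintype.card_fun, Fintype.card_fin, Fintype.card_fin] at this
  exact this

section Disc

variable {Lam : Type} [AddCommGroup Lam] {q : Lam → Lam → ℤ} {NS Ample : Set Lam} {P : Type}
  {SecA : Submodule ℂ (P → ℂ)} {n r kap : ℕ} {act : (Fin r → ℤ) → P → P}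
  {pull : (Fin r → ℤ) → Lam → Lam} {A : Lam} {Good : Set P}
  {JA : P → (P → ℂ) → MvPowerSeries (Fin kap) ℂ} {p : ℕ}
  [Fact p.Prime]

theorem fn_anZ (Dd : Disc q NS Ample SecA n act pull A Good JA p) (x : Dd.D) (j : Fin (Dd.k + 1)) :
    AnZ (Dd.P1 x) (Dd.P2 x) (fun m => Dd.fn x m j) := by
  intro N
  obtain ⟨Q, hQ⟩ := Dd.fn_an x j N
  refine ⟨Q, fun m => (dvd_iff N _).2 fun τ => ?_⟩
  rw [map_sub]
  exact hQ m τ

/-- [DETJ] -/
theorem detj (Dd : Disc q NS Ample SecA n act pull A Good JA p) (x : Dd.D) {N L : ℕ}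
    (l : Fin L → (Fin r → ℤ)) (rows : Fin N → (Fin r → ℤ)) (tau : Fin N → (Fin kap →₀ ℕ))
    (J : Fin N → Fin L → Fin (Dd.k + 1)) (D : ℕ) :
    (p : ℤ_[p]) ^ (D * (N - D ^ Dd.dl x)) ∣ Matrix.det (Matrix.of fun i j =>
      MvPowerSeries.coeff (tau i) (∏ s, Dd.fn x (l s + rows i) (J j s))) := by
  have h := det_bound_Z (D := D) (Dd.P1 x) (Dd.P2 x)
    (fun (j : Fin N) m => ∏ s, Dd.fn x (l s + m) (J j s))
    (fun j => AnZ.prod _ fun s _ => (fn_anZ Dd x (J j s)).shift (l s)) rows tau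
  exact h

/-- **Size of the determinant at the place `iota`**, when the span of the fields has dimension at
most `d`. -/
theorem norm_detj (Dd : Disc q NS Ample SecA n act pull A Good JA p) (x : Dd.D) {N L : ℕ}
    (l : Fin L → (Fin r → ℤ)) (rows : Fin N → (Fin r → ℤ)) (tau : Fin N → (Fin kap →₀ ℕ))
    (J : Fin N → Fin L → Fin (Dd.k + 1)) (D d : ℕ) (hd : Dd.dl x ≤ d) :
    ‖Dd.iota x (Matrix.det (Matrix.of fun i j =>
      MvPowerSeries.coeff (tau i) (∏ s, Dd.co x (l s + rows i) (J j s))))‖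
      ≤ (p : ℝ) ^ (Dd.M * ∑ i, (tau i).degree) * ((p : ℝ) ^ (D * (N - D ^ d)))⁻¹ := by
  classical
  have hp : (0 : ℝ) < p := by exact_mod_cast (Fact.out : p.Prime).pos
  have hp1 : (1 : ℝ) ≤ p := by exact_mod_cast (Fact.out : p.Prime).one_le
  have h1 := detj Dd x l rows tau J D
  have hg : ∀ i j, Scaled Dd.M (Dd.iota x) (∏ s, Dd.fn x (l s + rows i) (J j s))
      (∏ s, Dd.co x (l s + rows i) (J j s)) := fun i j =>
    Scaled.prod _ fun s _ τ => Dd.fn_val x _ _ τ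
  have h2 : ((Matrix.det (Matrix.of fun i j =>
      MvPowerSeries.coeff (tau i) (∏ s, Dd.fn x (l s + rows i) (J j s))) : ℤ_[p])
      : ℚ_[p]) = (p : ℚ_[p]) ^ (Dd.M * ∑ i, (tau i).degree) *
        Dd.iota x (Matrix.det (Matrix.of fun i j =>
          MvPowerSeries.coeff (tau i) (∏ s, Dd.co x (l s + rows i) (J j s)))) := by
    have e1 : ((Matrix.det (Matrix.of fun i j =>
        MvPowerSeries.coeff (tau i) (∏ s, Dd.fn x (l s + rows i) (J j s))) : ℤ_[p])
        : ℚ_[p]) = PadicInt.Coe.ringHom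
          (Matrix.det (Matrix.of fun i j =>
            MvPowerSeries.coeff (tau i) (∏ s, Dd.fn x (l s + rows i) (J j s)))) := rfl
    rw [e1, RingHom.map_det, RingHom.map_det]
    have e2 : (PadicInt.Coe.ringHom (p := p)).mapMatrix
        (Matrix.of fun i j =>
          MvPowerSeries.coeff (tau i) (∏ s, Dd.fn x (l s + rows i) (J j s)))
        = Matrix.of fun i j => (p : ℚ_[p]) ^ (Dd.M * (tau i).degree) *
          ((Dd.iota x).mapMatrix (Matrix.of fun i j =>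
            MvPowerSeries.coeff (tau i) (∏ s, Dd.co x (l s + rows i) (J j s)))) i j := by
      ext i j
      simp only [RingHom.mapMatrix_apply, Matrix.map_apply, Matrix.of_apply]
      exact hg i j (tau i)
    rw [e2, Matrix.det_mul_column]
    congr 1
    rw [Finset.prod_pow_eq_pow_sum, Finset.mul_sum]
  have h3 : ‖((Matrix.det (Matrix.of fun i j =>
      MvPowerSeries.coeff (tau i) (∏ s, Dd.fn x (l s + rows i) (J j s))) : ℤ_[p])
      : ℚ_[p])‖ ≤ ((p : ℝ) ^ (D * (N - D ^ d)))⁻¹ := by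
    have h4 : (p : ℤ_[p]) ^ (D * (N - D ^ d)) ∣
        Matrix.det (Matrix.of fun i j =>
          MvPowerSeries.coeff (tau i) (∏ s, Dd.fn x (l s + rows i) (J j s))) := by
      refine (pow_dvd_pow _ ?_).trans h1
      rcases Nat.eq_zero_or_pos D with hD | hD
      · simp [hD]
      · exact Nat.mul_le_mul_left _ (Nat.sub_le_sub_left (Nat.pow_le_pow_right hD hd) N)
    obtain ⟨c, hc⟩ := h4
    rw [← PadicInt.norm_def, hc, norm_mul, PadicInt.norm_p_pow]
    calc (p : ℝ) ^ (-((D * (N - D ^ d) : ℕ) : ℤ)) * ‖c‖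
        ≤ (p : ℝ) ^ (-((D * (N - D ^ d) : ℕ) : ℤ)) * 1 := by
          gcongr
          exact PadicInt.norm_le_one c
      _ = ((p : ℝ) ^ (D * (N - D ^ d)))⁻¹ := by rw [mul_one, zpow_neg, zpow_natCast]
  rw [h2, norm_mul, norm_pow, Padic.norm_p] at h3
  have h6 : ((p : ℝ)⁻¹ ^ (Dd.M * ∑ i, (tau i).degree))
      = ((p : ℝ) ^ (Dd.M * ∑ i, (tau i).degree))⁻¹ := by
    rw [inv_pow]
  rw [h6] at h3
  have h5 : (0 : ℝ) < (p : ℝ) ^ (Dd.M * ∑ i, (tau i).degree) := by positivity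
  rw [inv_mul_le_iff₀ h5] at h3
  exact h3

end Disc

end Pool.Agent.H2.HN
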