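import Pool.Agent.H73.HK.ZE

/-!
# Zero estimate with orders of vanishing (module ZEJ, dimension `2n`)

`X0` is a closed irreducible subset invariant under the group `ℤ^r` (the closure of a fibre of the
Iitaka fibration), `x` a point of `X0` whose orbits under all `n ≠ 0` are dense in `X0`, `F t` the
closed set of the points at which a given section vanishes to order `> t` along the foliation. If
`n.x` is in `F ((2d+2)T)` for all `|n| ≤ (2d+2)R`, then there is a proper closed irreducible `V`
containing `x`, all of whose translates by `|g| ≤ R` are distinct components of the common zeros of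
order `jT` of the translates by `|n| ≤ jR`, although on `V` one has `(j+1)T` and `(j+1)R`.
-/

namespace Pool.Agent.H2.HN

open Set Pool.Agent.H73.HK

variable {P : Type} [TopologicalSpace P] {r : ℕ}

/-- **Zero estimate with orders.** -/
theorem zero_estimate_jet (act : (Fin r → ℤ) → P → P) (act_zero : ∀ y, act 0 y = y)
    (act_add : ∀ m n y, act (m + n) y = act m (act n y)) (cont : ∀ n, Continuous (act n))
    (dim : Set P → ℕ)
    (mono : ∀ Z W, IsIrreducible Z → IsClosed Z → IsIrreducible W → IsClosed W → Z ⊆ W → Z ≠ W →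
      dim Z < dim W)
    (X0 : Set P) (hX0 : IsClosed X0) (inv : ∀ n, ∀ y ∈ X0, act n y ∈ X0)
    (d : ℕ) (dim_le : ∀ Z, IsIrreducible Z → IsClosed Z → Z ⊆ X0 → Z ≠ X0 → dim Z ≤ d)
    (F : ℕ → Set P) (hF : ∀ t, IsClosed (F t)) (antiF : Antitone F) (hne : ¬ X0 ⊆ F 0)
    (x : P) (hx0 : x ∈ X0)
    (dense : ∀ n : Fin r → ℤ, n ≠ 0 → X0 ⊆ closure (range fun k : ℤ => act (k • n) x)) (R T : ℕ)
    (van : ∀ n : Fin r → ℤ, (∀ i, |n i| ≤ (2 * d + 2) * R) → act n x ∈ F ((2 * d + 2) * T)) :
    ∃ j : ℕ, 1 ≤ j ∧ j ≤ 2 * d + 1 ∧ ∃ V : Set P, IsIrreducible V ∧ IsClosed V ∧ x ∈ V ∧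
      V ⊆ X0 ∧ V ≠ X0 ∧
      (∀ y ∈ V, ∀ n : Fin r → ℤ, (∀ i, |n i| ≤ (j + 1) * R) → act n y ∈ F ((j + 1) * T)) ∧
      (∀ g : Fin r → ℤ, (∀ i, |g i| ≤ (R : ℤ)) →
        IsComp {y | y ∈ X0 ∧ ∀ n : Fin r → ℤ, (∀ i, |n i| ≤ j * R) → act n y ∈ F (j * T)}
          (act g '' V)) ∧
      (∀ g g' : Fin r → ℤ, act g '' V = act g' '' V → g = g') := by
  classical
  let Z : ℕ → Set P := fun j =>
    {y | y ∈ X0 ∧ ∀ n : Fin r → ℤ, (∀ i, |n i| ≤ (j * R : ℤ)) → act n y ∈ F (j * T)}
  have closed : ∀ j, IsClosed (Z j) := by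
    intro j
    have : Z j = X0 ∩ ⋂ n : {n : Fin r → ℤ // ∀ i, |n i| ≤ (j * R : ℤ)}, act n ⁻¹' F (j * T) := by
      ext y; simp [Z]
    rw [this]
    exact hX0.inter (isClosed_iInter fun n => (hF _).preimage (cont n))
  have step : ∀ j, ∀ g : Fin r → ℤ, (∀ i, |g i| ≤ (R : ℤ)) → ∀ y ∈ Z (j + 1), act g y ∈ Z j := by
    intro j g hg y hy
    refine ⟨inv g y hy.1, fun n hn => ?_⟩
    rw [← act_add]
    refine antiF (Nat.mul_le_mul_right T (Nat.le_succ j)) (hy.2 _ fun i => ?_)
    have := abs_add_le (n i) (g i)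
    have h1 := hn i
    have h2 := hg i
    push_cast
    simp only [Pi.add_apply]
    linarith
  have anti : ∀ j, Z (j + 1) ⊆ Z j := by
    intro j y hy
    have := step j 0 (fun i => by simp) y hy
    rwa [act_zero] at this
  have anti' : Antitone Z := antitone_nat_of_succ_le anti
  have hZ0' : Z 0 ⊆ F 0 := by
    intro y hy
    have := hy.2 0 (fun i => by simp)
    rwa [act_zero, Nat.zero_mul] at this
  have hZX : ∀ j, Z j ⊆ X0 := fun j y hy => hy.1
  have hx : x ∈ Z (2 * d + 2) := by
    refine ⟨hx0, fun n hn => van n fun i => ?_⟩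
    have := hn i
    push_cast at this
    exact this
  have hne' : ∀ V, V ⊆ Z 0 → V ≠ X0 := by
    rintro V h3 rfl
    exact hne (h3.trans hZ0')
  have le : ∀ V, IsIrreducible V → IsClosed V → V ⊆ Z 0 → dim V ≤ d := fun V h1 h2 h3 =>
    dim_le V h1 h2 (h3.trans (hZX 0)) (hne' V h3)
  have irr : ∀ g V, IsIrreducible V → IsIrreducible (act g '' V) := fun g V h =>
    h.image _ (cont g).continuousOn
  have clo : ∀ g V, IsClosed V → IsClosed (act g '' V) := by
    intro g V h
    rw [image_eq_preimage act_zero act_add]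
    exact h.preimage (cont _)
  -- the dimension of `Z j` at `x`
  let Q : ℕ → ℕ → Prop := fun j e => ∃ V, IsIrreducible V ∧ IsClosed V ∧ V ⊆ Z j ∧ x ∈ V ∧ e ≤ dim V
  let D : ℕ → ℕ := fun j => Nat.findGreatest (Q j) d
  have hQ0 : ∀ j, j ≤ 2 * d + 2 → Q j 0 := by
    intro j hj
    refine ⟨closure {x}, isIrreducible_singleton.closure, isClosed_closure, ?_,
      subset_closure rfl, Nat.zero_le _⟩
    exact (closed j).closure_subset_iff.2 (singleton_subset_iff.2 (anti' hj hx))
  have hD : ∀ j, j ≤ 2 * d + 2 → Q j (D j) := fun j hj =>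
    Nat.findGreatest_spec (m := 0) (Nat.zero_le _) (hQ0 j hj)
  have hDle : ∀ j V, IsIrreducible V → IsClosed V → V ⊆ Z j → x ∈ V → dim V ≤ D j := by
    intro j V h1 h2 h3 h4
    exact Nat.le_findGreatest (le V h1 h2 (h3.trans (anti' (Nat.zero_le j))))
      ⟨V, h1, h2, h3, h4, le_rfl⟩
  have hDanti : ∀ j, j < 2 * d + 2 → D (j + 1) ≤ D j := by
    intro j hj
    obtain ⟨V, h1, h2, h3, h4, h5⟩ := hD (j + 1) hj
    exact h5.trans (hDle j V h1 h2 (h3.trans (anti j)) h4)
  have hDn : D 0 ≤ d := Nat.findGreatest_le d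
  -- pigeonhole principle: three consecutive values are equal
  have key : ∃ j, j + 1 ≤ 2 * d + 1 ∧ D j = D (j + 2) := by
    by_contra hcon
    push Not at hcon
    have : ∀ i, i ≤ d + 1 → D (2 * i) + i ≤ d := by
      intro i
      induction i with
      | zero => intro _; simpa using hDn
      | succ i ih =>
        intro hi
        have h1 := ih (by omega)
        have h2 := hcon (2 * i) (by omega)
        have h3 := hDanti (2 * i) (by omega)
        have h4 := hDanti (2 * i + 1) (by omega)
        have h5 : 2 * (i + 1) = 2 * i + 1 + 1 := by ring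
        rw [h5]
        have h6 : D (2 * i + 1 + 1) ≠ D (2 * i) := fun h => h2 h.symm
        omega
    have := this (d + 1) le_rfl
    omega
  obtain ⟨j, hj, hjD⟩ := key
  obtain ⟨V, h1, h2, h3, h4, h5⟩ := hD (j + 2) (by omega)
  have hVne : V ≠ X0 := hne' V (h3.trans (anti' (Nat.zero_le _)))
  have inj : ∀ g g' : Fin r → ℤ, act g '' V = act g' '' V → g = g' := by
    intro g g' h'
    by_contra hgg
    have hn : g' - g ≠ 0 := fun h' => hgg (sub_eq_zero.1 h').symm
    have hV : act (g' - g) '' V = V := by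
      have h6 : act (-g) '' (act g' '' V) = act (g' - g) '' V := by
        rw [← image_comp]
        refine image_congr fun y _ => ?_
        rw [Function.comp_apply, ← act_add, sub_eq_neg_add]
      rw [← h6, ← h', ← image_comp]
      have : act (-g) ∘ act g = id := funext fun y => act_neg_act act_zero act_add g y
      rw [this, image_id]
    have hk : ∀ k : ℤ, act (k • (g' - g)) x ∈ V := by
      have hpre : ∀ y, act (g' - g) y ∈ V ↔ y ∈ V := by
        intro y
        constructor
        · intro hy
          rw [← hV] at hy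
          obtain ⟨z, hz, hzy⟩ := hy
          have := congrArg (act (-(g' - g))) hzy
          rw [act_neg_act act_zero act_add, act_neg_act act_zero act_add] at this
          rwa [← this]
        · intro hy
          rw [← hV]
          exact ⟨y, hy, rfl⟩
      intro k
      induction k using Int.induction_on with
      | zero => rwa [zero_smul, act_zero]
      | succ k ih =>
        have : ((k : ℤ) + 1) • (g' - g) = (g' - g) + (k : ℤ) • (g' - g) := by
          rw [add_smul, one_smul, add_comm]
        rw [this, act_add]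
        exact (hpre _).2 ih
      | pred k ih =>
        have : (-(k : ℤ)) • (g' - g) = (g' - g) + (-(k : ℤ) - 1) • (g' - g) := by
          rw [sub_smul, one_smul]; abel
        rw [this, act_add] at ih
        exact (hpre _).1 ih
    have : X0 ⊆ V := (dense _ hn).trans (h2.closure_subset_iff.2 (range_subset_iff.2 hk))
    exact hVne (Subset.antisymm (h3.trans (hZX _)) this)
  refine ⟨j + 1, by omega, hj, V, h1, h2, h4, h3.trans (hZX _), hVne, ?_, ?_, inj⟩
  · intro y hy n hn
    have := (h3 hy).2 n fun i => by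
      have := hn i
      push_cast at this ⊢
      linarith
    convert this using 2
  · intro g hg'
    have hg'' : ∀ i, |(-g) i| ≤ (R : ℤ) := fun i => by simpa using hg' i
    have hset : {y | y ∈ X0 ∧ ∀ n : Fin r → ℤ, (∀ i, |n i| ≤ ((j + 1 : ℕ) : ℤ) * R) →
        act n y ∈ F ((j + 1) * T)} = Z (j + 1) := rfl
    rw [hset]
    refine ⟨irr g V h1, ?_, ?_⟩
    · rintro _ ⟨y, hy, rfl⟩
      exact step (j + 1) g hg' y (h3 hy)
    · intro W' hW' hWZ hVW
      -- the closure of `W'`
      have hc : closure W' ⊆ Z (j + 1) := (closed (j + 1)).closure_subset_iff.2 hWZ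
      have hsub : V ⊆ act (-g) '' closure W' := by
        intro y hy
        exact ⟨act g y, subset_closure (hVW ⟨y, hy, rfl⟩), act_neg_act act_zero act_add g y⟩
      have hZj : act (-g) '' closure W' ⊆ Z j := by
        rintro _ ⟨y, hy, rfl⟩
        exact step j (-g) hg'' y (hc hy)
      have hdim : dim (act (-g) '' closure W') ≤ dim V := by
        have := hDle j _ (irr _ _ hW'.closure) (clo _ _ isClosed_closure) hZj (hsub h4)
        rw [hjD] at this
        exact this.trans h5
      have heq : V = act (-g) '' closure W' := by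
        by_contra hne'
        exact absurd (mono _ _ h1 h2 (irr _ _ hW'.closure) (clo _ _ isClosed_closure) hsub hne')
          (not_lt.2 hdim)
      refine Subset.antisymm ?_ hVW
      intro y hy
      have : act (-g) y ∈ V := by
        rw [heq]
        exact ⟨y, subset_closure hy, rfl⟩
      exact ⟨_, this, act_act_neg act_zero act_add g y⟩

end Pool.Agent.H2.HN
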