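import Pool.Agent.H13.HN.Iitaka
import Pool.Agent.H83.HN.Para
import Pool.Agent.H2.HN.ZEJ

/-!
# Zero estimate for sections, with jets (module NVJ, dimension `2n`)

A section `s` of `E` which is not zero on the closure `Fib x` of the fibre of the Iitaka fibration
through `x` has a jet of order at most `(4n+2) T` which is not zero at some point `m.x`,
`|m| ≤ (4n+2) R`, if the class `B` dominates the translates of `E + t N0` and
`C q(B,B)^(n-k) q(B,L)^k < (2R+1)^r T^k`.
-/

namespace Pool.Agent.H2.HN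

open Set
open Pool.Agent.H83.HN (Manifold Para)
open Pool.Agent.H13.HN (Iitaka)

/-- multiples of a power series without terms of low degree -/
theorem coeff_mul_eq_zero {κ T : ℕ} {f g : MvPowerSeries (Fin κ) ℂ}
    (hf : ∀ tau : Fin κ →₀ ℕ, tau.degree ≤ T → MvPowerSeries.coeff tau f = 0)
    (tau : Fin κ →₀ ℕ) (ht : tau.degree ≤ T) : MvPowerSeries.coeff tau (g * f) = 0 := by
  classical
  rw [MvPowerSeries.coeff_mul]
  refine Finset.sum_eq_zero fun x hx => ?_
  have h1 := Finset.HasAntidiagonal.mem_antidiagonal.1 hx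
  have h2 : x.2.degree ≤ T := by
    have h3 : x.1.degree + x.2.degree = tau.degree := by rw [← map_add, h1]
    omega
  rw [hf x.2 h2, mul_zero]

variable {n : ℕ} {Lam : Type} [AddCommGroup Lam] {q : Lam → Lam → ℤ} {M : Manifold n Lam q}
  {L A : Lam} {r : ℕ}

theorem nonvanish_jet (I : Iitaka M L) (hco : I.Cois) (hA : A ∈ M.VeryAmple) :
    ∃ C : ℝ, ∀ (rho : (Fin r → ℤ) → M.Aut), rho 0 = 1 → (∀ a b, rho (a + b) = rho a * rho b) →
      (∀ m, rho m ∈ I.triv) → ∀ x ∈ I.Reg,
      (∀ m : Fin r → ℤ, m ≠ 0 → I.Fib x ⊆ closure (range fun k : ℤ => rho (k • m) • x)) →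
      ∀ (R T : ℕ), 0 < T → ∀ E B : Lam,
      (∀ m : Fin r → ℤ, (∀ i, |m i| ≤ (4 * n + 1) * (R : ℤ)) → ∀ t : ℕ, t ≤ (4 * n + 1) * T →
        B - M.pull (rho m) (E + t • I.N0) - (2 * n + 1) • A ∈ M.Nef) →
      B - (T + (2 * n + 1)) • A ∈ M.Nef →
      C * (q B B : ℝ) ^ (n - I.k) * (q B L : ℝ) ^ I.k < (2 * (R : ℝ) + 1) ^ r * (T : ℝ) ^ I.k →
      ∀ s ∈ M.Sec E, (∃ y ∈ I.Fib x, s y ≠ 0) →
      ∃ m : Fin r → ℤ, (∀ i, |m i| ≤ (4 * n + 2) * (R : ℤ)) ∧
        ∃ tau : Fin I.k →₀ ℕ, tau.degree ≤ (4 * n + 2) * T ∧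
          MvPowerSeries.coeff tau (I.J (rho m • x) E s) ≠ 0 := by
  classical
  obtain ⟨C, hC⟩ := I.bezout hco A hA
  refine ⟨C, fun rho rho0 rho_add htriv x hx dense R T hT E B hB hBT hcard s hs hne => ?_⟩
  by_contra hcon
  push Not at hcon
  -- the equations
  choose Sig hSigB hSig using fun t : ℕ => I.equations hco E s hs t
  let F : ℕ → Set M.P := fun t => {y | ∀ t' ≤ t, ∀ v ∈ Sig t', v y = 0}
  have hFcl : ∀ t, IsClosed (F t) := by
    intro t
    have : F t = ⋂ t' : {t' : ℕ // t' ≤ t}, ⋂ v : Sig t'.1, {y | v.1 y = 0} := by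
      ext y
      simp [F]
    rw [this]
    exact isClosed_iInter fun t' => isClosed_iInter fun v =>
      M.zero_closed _ v.1 (hSigB t'.1 v.2)
  have hFanti : Antitone F := fun a b hab y hy t' ht' => hy t' (ht'.trans hab)
  have hFiff : ∀ t, ∀ y, I.s 0 y ≠ 0 → (y ∈ F t ↔
      ∀ tau : Fin I.k →₀ ℕ, tau.degree ≤ t → MvPowerSeries.coeff tau (I.J y E s) = 0) := by
    intro t y hy
    constructor
    · intro h
      exact ((hSig t).1 y hy).1 (h t le_rfl)
    · intro h t' ht'
      exact ((hSig t').1 y hy).2 fun tau htau => h tau (htau.trans ht')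
  have hx0 : I.s 0 x ≠ 0 := I.reg_good x hx
  have hFne : ¬ I.Fib x ⊆ F 0 := by
    intro hsub
    have h1 : I.Fib x ⊆ {y | s y = 0} ∪ {y | I.s 0 y = 0} := by
      intro y hy
      by_cases h0 : I.s 0 y = 0
      · exact Or.inr h0
      · left
        have h2 := (hFiff 0 y h0).1 (hsub hy) 0 (by simp)
        have h3 := I.J_val y h0 E s hs
        rw [← MvPowerSeries.coeff_zero_eq_constantCoeff_apply, h2] at h3
        exact h3.symm
    have h4 := (isPreirreducible_iff_isClosed_union_isClosed.1 (I.fib_irr x hx).2)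
      {y | s y = 0} {y | I.s 0 y = 0} (M.zero_closed E s hs)
      (M.zero_closed _ _ (I.s_mem 0)) h1
    rcases h4 with h4 | h4
    · obtain ⟨y, hy, hy'⟩ := hne
      exact hy' (h4 hy)
    · exact hx0 (h4 (I.fib_mem x hx))
  have act_good : ∀ m y, I.s 0 y ≠ 0 → I.s 0 (rho m • y) ≠ 0 := fun m y hy =>
    I.triv_good _ (htriv m) y hy
  obtain ⟨j, hj1, hj2, V, hVirr, hVcl, hxV, hVX, hVne, hVord, hVcomp, hVinj⟩ :=
    zero_estimate_jet (fun m (y : M.P) => rho m • y)
      (fun y => by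
        rw [rho0, one_smul])
      (fun a b y => by
        rw [rho_add, mul_smul])
      (fun m => M.aut_cont (rho m)) M.dim
      (fun Z W h1 h2 h3 h4 h5 h6 => M.dim_mono Z W h2 h1 h4 h3 h5 h6)
      (I.Fib x) (I.fib_closed x hx)
      (fun m y hy => by
        have h1 := (I.triv_reg (rho m) (htriv m) x hx).2 y hy
        exact h1)
      (2 * n)
      (fun Z h1 h2 h3 h4 => by
        have h5 : Z ≠ univ := by
          rintro rfl
          exact h4 (Subset.antisymm h3 (subset_univ _))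
        have h6 := M.dim_mono Z univ h2 h1 isClosed_univ
          (IrreducibleSpace.isIrreducible_univ M.P) (subset_univ _) h5
        rw [M.dim_univ] at h6
        exact h6.le)
      F hFcl hFanti hFne x (I.fib_mem x hx) dense R T
      (fun m hm => by
        refine (hFiff _ _ (act_good m x hx0)).2 fun tau htau => ?_
        refine hcon m (fun i => ?_) tau ?_
        · have := hm i
          push_cast at this
          linarith
        · calc tau.degree ≤ (2 * (2 * n) + 2) * T := htau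
            _ = (4 * n + 2) * T := by ring)
  have hj2' : j ≤ 4 * n + 1 := by omega
  have hjR : ∀ m : Fin r → ℤ, (∀ i, |m i| ≤ (j : ℤ) * R) →
      ∀ i, |m i| ≤ (4 * n + 1) * (R : ℤ) := by
    intro m hm i
    refine (hm i).trans ?_
    have h1 : (j : ℤ) ≤ 4 * n + 1 := by exact_mod_cast hj2'
    exact mul_le_mul_of_nonneg_right h1 (by positivity)
  -- units for the pull backs
  choose u hu0 hu using fun (m : Fin r → ℤ) (t : ℕ) => M.pull_sec (rho m) (E + t • I.N0)
  let S0 : Set (M.P → ℂ) := {w | ∃ m : Fin r → ℤ, (∀ i, |m i| ≤ (j : ℤ) * R) ∧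
    ∃ t ≤ j * T, ∃ v ∈ Sig t, ∃ b ∈ M.Sec (B - M.pull (rho m) (E + t • I.N0)),
      w = (fun y => u m t y * v (rho m • y)) * b}
  have hpb : ∀ m t, ∀ v ∈ Sig t, (fun y => u m t y * v (rho m • y)) ∈
      M.Sec (M.pull (rho m) (E + t • I.N0)) := fun m t v hv =>
    (hu m t _).2 ⟨v, hSigB t hv, fun y => rfl⟩
  have hS0 : S0 ⊆ (M.Sec B : Set (M.P → ℂ)) := by
    rintro w ⟨m, _, t, _, v, hv, b, hb, rfl⟩
    have := M.sec_mul _ _ _ (hpb m t v hv) _ hb
    rwa [add_sub_cancel] at this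
  have hZ : {y : M.P | y ∈ I.Fib x ∧ ∀ m : Fin r → ℤ, (∀ i, |m i| ≤ (j : ℤ) * R) →
      rho m • y ∈ F (j * T)} = {y | y ∈ I.Fib x ∧ ∀ w ∈ S0, w y = 0} := by
    ext y
    constructor
    · rintro ⟨hy1, hy2⟩
      refine ⟨hy1, ?_⟩
      rintro w ⟨m, hm, t, ht, v, hv, b, hb, rfl⟩
      have := hy2 m hm t ht v hv
      simp [this]
    · rintro ⟨hy1, hy2⟩
      refine ⟨hy1, fun m hm t ht v hv => ?_⟩
      have ht' : t ≤ (4 * n + 1) * T := ht.trans (Nat.mul_le_mul_right T hj2')
      obtain ⟨b, hb, hby⟩ := M.generated A hA (B - M.pull (rho m) (E + t • I.N0))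
        (hB m (hjR m hm) t ht') y
      have h1 := hy2 ((fun y => u m t y * v (rho m • y)) * b) ⟨m, hm, t, ht, v, hv, b, hb, rfl⟩
      rw [Pi.mul_apply, mul_eq_zero] at h1
      rcases h1 with h1 | h1
      · rcases mul_eq_zero.1 h1 with h2 | h2
        · exact absurd h2 (hu0 m t y)
        · exact h2
      · exact absurd h1 hby
  let S : Finset (Set M.P) := (Pool.Agent.H73.HK.box r R).image fun g =>
    (fun y : M.P => rho g • y) '' V
  have hScard : (S.card : ℝ) = (2 * (R : ℝ) + 1) ^ r := by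
    have h1 : S.card = (2 * R + 1) ^ r := by
      rw [Finset.card_image_of_injOn (fun g _ g' _ h => hVinj g g' h),
        Pool.Agent.H73.HK.card_box]
    rw [h1]
    push_cast
    ring
  have h8 := hC x hx T hT B hBT S0 hS0 S (fun W hW => by
    obtain ⟨g, hg, rfl⟩ := Finset.mem_image.1 hW
    have hg' : ∀ i, |g i| ≤ (R : ℤ) := Pool.Agent.H73.HK.mem_box.1 hg
    refine ⟨?_, ⟨rho g • x, ⟨x, hxV, rfl⟩, (I.triv_reg (rho g) (htriv g) x hx).1⟩, ?_⟩
    · have h1 := hVcomp g hg'
      rw [hZ] at h1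
      exact h1
    · rintro _ ⟨y, hy, rfl⟩ hy0 w ⟨m, hm, t, ht, v, hv, b, hb, rfl⟩ tau htau
      -- the point `m.(g.y)`
      have hpt : rho m • rho g • y = rho (m + g) • y := by rw [rho_add, mul_smul]
      have hmg : ∀ i, |(m + g) i| ≤ ((j : ℤ) + 1) * R := by
        intro i
        have h1 := abs_add_le (m i) (g i)
        have h2 := hm i
        have h3 := hg' i
        simp only [Pi.add_apply]
        linarith
      have hF1 := hVord y hy (m + g) hmg
      have h0 : I.s 0 (rho m • rho g • y) ≠ 0 := act_good m _ hy0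
      have hF2 : rho m • rho g • y ∈ F ((j + 1) * T) := by
        rw [hpt]
        exact hF1
      have hjet := (hFiff _ _ h0).1 hF2
      have hv1 := (hSig t).2 (rho m • rho g • y) h0 T (fun tau' htau' =>
        hjet tau' (htau'.trans (by
          rw [add_mul, one_mul]
          omega))) v hv
      obtain ⟨U, _, hU⟩ := I.J_pull (rho m) (htriv m) (rho g • y) hy0 (E + t • I.N0) (u m t)
        (hu0 m t) (hu m t)
      have e1 := hU v (hSigB t hv)
      have e2 := I.J_mul (rho g • y) hy0 (M.pull (rho m) (E + t • I.N0))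
        (B - M.pull (rho m) (E + t • I.N0)) _ (hpb m t v hv) b hb
      rw [add_sub_cancel] at e2
      change MvPowerSeries.coeff tau (I.J (rho g • y) B
        ((fun y => u m t y * v (rho m • y)) * b)) = 0
      rw [e2, e1]
      have e3 : ∀ a c d : MvPowerSeries (Fin I.k) ℂ, a * c * d = a * d * c := by
        intro a c d
        ring
      rw [e3]
      exact coeff_mul_eq_zero hv1 tau htau.le)
  rw [hScard] at h8
  exact absurd h8 (not_le.2 hcard)

end Pool.Agent.H2.HN
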